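import Pool.Agent.Y254.HK.Stm

/-! # Project HK, the first inequality (job HK-A1) -/

set_option autoImplicit false

open Finset
open scoped Classical

namespace Pool.Agent.Y705.HK
open Pool.Agent.W904.AK Pool.Agent.W46.HD Pool.Agent.W46.HM Pool.Agent.Y244.HM
  Pool.Agent.Y254HK

/-- the final algebra -/
theorem a1_alg (d b N L a h E C0 CW w s5 sX1 sX hx kt ktP pT th pp sig : ℝ)
    (hb : 1 < b) (hE : 0 ≤ E) (hC0 : 0 ≤ C0)
    (w5 : 2 * a - h + 3 * N - 5 * L + w ≤ s5 + CW * (E + C0))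
    (r1 : s5 ≤ sX1 + sig + 2 * E)
    (ku : N - w ≤ pT) (kk : pT ≤ kt - sX)
    (orc : sX1 - sX ≤ b * (ktP - kt) + d * (N - pT) + ((kt - sX) - pT) + C0)
    (hd : 0 ≤ d)
    (r3 : ktP + th ≤ pp + hx + E) (r4 : hx ≤ N + E) :
    2 * a - h + 3 * N + (b - 1) * sX ≤ b * (pp - th) + sig + 5 * L + (b + d - 1) * w +
      (CW + 2 * (b + 1) + 1) * (E + C0) := by
  have m1 : 0 ≤ (b - 1) * ((kt - sX) - (N - w)) := mul_nonneg (by linarith) (by linarith)
  have m2 : 0 ≤ d * (pT - (N - w)) := mul_nonneg hd (by linarith)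
  have m3 : 0 ≤ b * (pp + N + 2 * E - th - ktP) := mul_nonneg (by linarith) (by linarith)
  have m4 : 0 ≤ b * C0 := mul_nonneg (by linarith) hC0
  nlinarith

theorem t_a1 (hW : S_W) : S_A1 := by
  intro d b hb
  obtain ⟨CW, hCW, hW⟩ := hW d b hb
  refine ⟨CW + 2 * (b + 1) + 1, by linarith, ?_⟩
  intro n Ω iΩ A D hfam p S E C0 hp Θ iΘ q l1 l2 l3 s0 s1 t t' τ v hc hg hE hC0 hO
  obtain ⟨-, -, -, -, w5, -⟩ :=
    hW n Ω iΩ A D hfam p S E C0 hp Θ iΘ q l1 l2 l3 s0 s1 t t' τ v hc hg hE hC0 hO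
  have hq := hc.law
  have hsz := hg.fa.sz
  have hg3 := hg.fa.g3
  have hd1 := hg.fb.d1
  have hf3 : H q (fun z => ((t z, t' z, cell A D (t z) (l1 z), cell A D (t' z) (l3 z),
      (XX A D l1 l3 s0 s1 t t' z).1), XX A D l1 l3 s0 s1 t t' z)) ≤
    H q (fun z => (t z, t' z, cell A D (t z) (l1 z), cell A D (t' z) (l3 z),
      (XX A D l1 l3 s0 s1 t t' z).1)) + E := hg.f3
  have hwd : wT q l1 l3 s0 s1 t t' = Real.log n -
    (H q (fun z => (l1 z, l3 z, s0 z, s1 z, YY s0 s1 t t' z, t z)) -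
    H q (fun z => (l1 z, l3 z, s0 z, s1 z, YY s0 s1 t t' z))) := rfl
  have hXd : ∀ x y, s1 x = s1 y → YY s0 s1 t t' x = YY s0 s1 t t' y → l1 x = l1 y →
      l3 x = l3 y → XX A D l1 l3 s0 s1 t t' x = XX A D l1 l3 s0 s1 t t' y := by
    intro x y h1 h2 h3 h4
    simp only [XX, h1, h2, h3, h4]
  have hXi : ∀ x y, s1 x = s1 y → XX A D l1 l3 s0 s1 t t' x = XX A D l1 l3 s0 s1 t t' y →
      YY s0 s1 t t' x = YY s0 s1 t t' y := by
    intro x y h1 h2
    have h3 := congrArg Prod.fst h2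
    simp only [XX, h1] at h3
    linarith
  show 2 * aa p - hh A D p + 3 * Real.log n + (b - 1) * H q (XX A D l1 l3 s0 s1 t t') ≤
    b * (H q (fun z => (t z, t' z, cell A D (t z) (l1 z), cell A D (t' z) (l3 z))) -
      (H q (fun z => ((cell A D (t z) (l1 z), XX A D l1 l3 s0 s1 t t' z, t z), t' z)) -
        H q (fun z => (cell A D (t z) (l1 z), XX A D l1 l3 s0 s1 t t' z, t z)))) +
    (H q (fun z => ((l1 z, XX A D l1 l3 s0 s1 t t' z), s1 z)) -
      H q (fun z => (l1 z, XX A D l1 l3 s0 s1 t t' z))) +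
    5 * lam p + (b + d - 1) * wT q l1 l3 s0 s1 t t' + _ * (E + C0)
  rw [hwd] at w5 ⊢
  generalize YY s0 s1 t t' = Y at w5 hXd hXi ⊢
  generalize XX A D l1 l3 s0 s1 t t' = X at hsz hg3 hf3 hXd hXi ⊢
  have r1a : H q (fun z => (l1 z, l3 z, s0 z, s1 z, Y z)) ≤
      H q (fun z => ((l1 z, s1 z, X z, l3 z), s0 z)) := H_mono hq (by
    intro x y _ _ h
    simp only [Prod.mk.injEq] at h ⊢
    obtain ⟨⟨h1, h2, h3, h4⟩, h5⟩ := h
    exact ⟨h1, h4, h5, h2, hXi x y h2 h3⟩)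
  have r1b : H q (fun z => ((l1 z, s1 z, X z, l3 z), s0 z)) + H q (fun z => (l1 z, l3 z)) ≤
      H q (fun z => (l1 z, s1 z, X z, l3 z)) + H q (fun z => ((l1 z, l3 z), s0 z)) :=
    submod' hq (by intro x y _ _ h; simp only [Prod.mk.injEq] at h ⊢; tauto)
      (by intro x y _ _ h; simp only [Prod.mk.injEq] at h ⊢; tauto)
      (by intro x y _ _ h; simp only [Prod.mk.injEq] at h ⊢; tauto)
  have r1c : H q (fun z => (l1 z, s1 z, X z, l3 z)) ≤ H q (fun z => ((l1 z, s1 z, X z), l3 z)) :=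
    H_mono hq (by intro x y _ _ h; simp only [Prod.mk.injEq] at h ⊢; tauto)
  have r1d : H q (fun z => (l1 z, s1 z, X z)) ≤ H q (fun z => ((l1 z, X z), s1 z)) :=
    H_mono hq (by intro x y _ _ h; simp only [Prod.mk.injEq] at h ⊢; tauto)
  have r1e : H q (fun z => (l1 z, X z)) = H q (fun z => (X z, l1 z)) :=
    H_congr hq (by intro x y _ _ h; simp only [Prod.mk.injEq] at h ⊢; tauto)
      (by intro x y _ _ h; simp only [Prod.mk.injEq] at h ⊢; tauto)
  have ku : H q (fun z => (l1 z, l3 z, s0 z, s1 z, Y z, t z)) + H q (fun z => (X z, l1 z)) ≤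
      H q (fun z => (l1 z, l3 z, s0 z, s1 z, Y z)) + H q (fun z => (X z, l1 z, t z)) :=
    submod' hq (by
      intro x y _ _ h
      simp only [Prod.mk.injEq] at h ⊢
      obtain ⟨h1, h2, h3, h4, h5⟩ := h
      exact ⟨hXd x y h4 h5 h1 h2, h1⟩)
      (by intro x y _ _ h; simp only [Prod.mk.injEq] at h ⊢; tauto)
      (by intro x y _ _ h; simp only [Prod.mk.injEq] at h ⊢; tauto)
  have kk : H q (fun z => (X z, l1 z, t z)) + H q X ≤
      H q (fun z => (X z, l1 z)) + H q (fun z => (X z, t z)) :=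
    submod' hq (by intro x y _ _ h; simp only [Prod.mk.injEq] at h ⊢; tauto)
      (by intro x y _ _ h; simp only [Prod.mk.injEq] at h ⊢; tauto)
      (by intro x y _ _ h; simp only [Prod.mk.injEq] at h ⊢; tauto)
  have orc := OCM d n Ω A D b d C0 hO Θ _ q l1 t X hq
  have r3a : H q (fun z => ((cell A D (t z) (l1 z), X z, t z), t' z)) ≤
      H q (fun z => ((t z, t' z, cell A D (t z) (l1 z), cell A D (t' z) (l3 z), (X z).1), X z)) :=
    H_mono hq (by intro x y _ _ h; simp only [Prod.mk.injEq] at h ⊢; tauto)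
  have r3b : H q (fun z => (t z, t' z, cell A D (t z) (l1 z), cell A D (t' z) (l3 z), (X z).1)) ≤
      H q (fun z => (t z, t' z, cell A D (t z) (l1 z), cell A D (t' z) (l3 z))) +
      H q (fun z => (X z).1) :=
    subadd hq (by intro x y _ _ h; simp only [Prod.mk.injEq] at h ⊢; tauto)
  have r3c : H q (fun z => (X z, t z, cell A D (t z) (l1 z))) =
      H q (fun z => (cell A D (t z) (l1 z), X z, t z)) :=
    H_congr hq (by intro x y _ _ h; simp only [Prod.mk.injEq] at h ⊢; tauto)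
      (by intro x y _ _ h; simp only [Prod.mk.injEq] at h ⊢; tauto)
  rw [r3c] at orc
  refine a1_alg d b (Real.log n) (lam p) (aa p) (hh A D p) E C0 CW
    (Real.log n - (H q (fun z => (l1 z, l3 z, s0 z, s1 z, Y z, t z)) -
      H q (fun z => (l1 z, l3 z, s0 z, s1 z, Y z))))
    (H q (fun z => (l1 z, l3 z, s0 z, s1 z, Y z))) (H q (fun z => (X z, l1 z))) (H q X)
    (H q (fun z => (X z).1)) (H q (fun z => (X z, t z)))
    (H q (fun z => (cell A D (t z) (l1 z), X z, t z)))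
    (H q (fun z => (X z, l1 z, t z)) - H q (fun z => (X z, l1 z))) _ _ _
    hb hE hC0 w5 (by linarith) (by linarith) (by linarith) orc (Nat.cast_nonneg d)
    (by linarith) hsz

end Pool.Agent.Y705.HK
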