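import Pool.Agent.Y254.HK.Stm

/-! # Project HK, the second inequality (job HK-B1) -/

set_option autoImplicit false

open Finset
open scoped Classical

namespace Pool.Agent.Y705.HK
open Pool.Agent.W904.AK Pool.Agent.W46.HD Pool.Agent.W46.HM Pool.Agent.Y244.HM
  Pool.Agent.Y254HK

/-- the final algebra -/
theorem b1_alg (d b N L a h E C0 CW w g s7 sW1 sW sX kt ktT pT ze kap om : ℝ)
    (hb : 1 < b) (hE : 0 ≤ E) (hC0 : 0 ≤ C0)
    (w6 : 3 * a - 2 * h + 4 * N - 8 * L + w + g ≤ s7 + CW * (E + C0))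
    (r1 : s7 ≤ sW1 + om + kap + 2 * E)
    (ku : N - g ≤ pT) (kk : pT ≤ kt - sW)
    (orc : sW1 - sW ≤ b * (ktT - kt) + d * (N - pT) + ((kt - sW) - pT) + C0)
    (hd : 0 ≤ d)
    (r3 : ktT + ze ≤ h + 2 * N + sX + 2 * E) :
    3 * a - 2 * h + 4 * N + (b - 1) * sW ≤ b * (h + N + sX - ze) + om + kap + 8 * L - w +
      (b + d - 1) * g + (CW + 2 * (b + 1) + 1) * (E + C0) := by
  have m1 : 0 ≤ (b - 1) * ((kt - sW) - (N - g)) := mul_nonneg (by linarith) (by linarith)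
  have m2 : 0 ≤ d * (pT - (N - g)) := mul_nonneg hd (by linarith)
  have m3 : 0 ≤ b * (h + 2 * N + sX + 2 * E - ze - ktT) := mul_nonneg (by linarith) (by linarith)
  have m4 : 0 ≤ b * C0 := mul_nonneg (by linarith) hC0
  nlinarith

theorem t_b1 (hW : S_W) : S_B1 := by
  intro d b hb
  obtain ⟨CW, hCW, hW⟩ := hW d b hb
  refine ⟨CW + 2 * (b + 1) + 1, by linarith, ?_⟩
  intro n Ω iΩ A D hfam p S E C0 hp Θ iΘ q l1 l2 l3 s0 s1 t t' τ v hc hg hE hC0 hO
  obtain ⟨-, -, -, -, -, w6⟩ :=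
    hW n Ω iΩ A D hfam p S E C0 hp Θ iΘ q l1 l2 l3 s0 s1 t t' τ v hc hg hE hC0 hO
  have hq := hc.law
  have hi1 := hc.i1
  have hτ := hc.hτ
  have hsg := hg.fa.sg
  have hc3 := hg.fa.c3
  have hc1 := hg.fa.c1
  have hf8 : H q (fun z => ((τ z, cell A D (τ z) (l2 z), XX A D l1 l3 s0 s1 t t' z,
      (WW A D l2 l3 s0 s1 t t' τ v z).1), WW A D l2 l3 s0 s1 t t' τ v z)) ≤
    H q (fun z => (τ z, cell A D (τ z) (l2 z), XX A D l1 l3 s0 s1 t t' z,
      (WW A D l2 l3 s0 s1 t t' τ v z).1)) + E := hg.f8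
  have hwd : wG q l1 l2 l3 s0 s1 t t' τ v = Real.log n -
    (H q (fun z => (l1 z, l2 z, l3 z, s0 z, s1 z, v z, MM s0 s1 t t' τ v z, τ z)) -
    H q (fun z => (l1 z, l2 z, l3 z, s0 z, s1 z, v z, MM s0 s1 t t' τ v z))) := rfl
  have hWd : ∀ x y, v x = v y → MM s0 s1 t t' τ v x = MM s0 s1 t t' τ v y → l2 x = l2 y →
      l3 x = l3 y → WW A D l2 l3 s0 s1 t t' τ v x = WW A D l2 l3 s0 s1 t t' τ v y := by
    intro x y h1 h2 h3 h4
    simp only [WW, h1, h2, h3, h4]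
  have hWi : ∀ x y, v x = v y → WW A D l2 l3 s0 s1 t t' τ v x = WW A D l2 l3 s0 s1 t t' τ v y →
      MM s0 s1 t t' τ v x = MM s0 s1 t t' τ v y := by
    intro x y h1 h2
    have h3 := congrArg Prod.fst h2
    simp only [WW, h1] at h3
    linarith
  show 3 * aa p - 2 * hh A D p + 4 * Real.log n +
      (b - 1) * H q (WW A D l2 l3 s0 s1 t t' τ v) ≤
    b * (hh A D p + Real.log n + H q (XX A D l1 l3 s0 s1 t t') -
      (H q (fun z => (l2 z, WW A D l2 l3 s0 s1 t t' τ v z, τ z,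
        (XX A D l1 l3 s0 s1 t t' z).1)) -
      H q (fun z => (l2 z, WW A D l2 l3 s0 s1 t t' τ v z, τ z)))) +
    (H q (fun z => (l2 z, WW A D l2 l3 s0 s1 t t' τ v z, v z, s1 z)) -
      H q (fun z => (l2 z, WW A D l2 l3 s0 s1 t t' τ v z))) +
    (H q (fun z => ((l3 z, s1 z, cell A D (s1 z) (l1 z)), s0 z)) -
      H q (fun z => (l3 z, s1 z, cell A D (s1 z) (l1 z)))) +
    8 * lam p - wT q l1 l3 s0 s1 t t' + (b + d - 1) * wG q l1 l2 l3 s0 s1 t t' τ v + _ * (E + C0)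
  generalize wT q l1 l3 s0 s1 t t' = w at w6 ⊢
  rw [hwd] at w6 ⊢
  generalize MM s0 s1 t t' τ v = M at w6 hWd hWi ⊢
  generalize WW A D l2 l3 s0 s1 t t' τ v = W at hsg hc3 hf8 hWd hWi ⊢
  generalize XX A D l1 l3 s0 s1 t t' = X at hf8 ⊢
  have r1a : H q (fun z => (l1 z, l2 z, l3 z, s0 z, s1 z, v z, M z)) ≤
      H q (fun z => ((l2 z, l3 z, s0 z, s1 z, v z, W z), l1 z)) := H_mono hq (by
    intro x y _ _ h
    simp only [Prod.mk.injEq] at h ⊢
    obtain ⟨⟨h1, h2, h3, h4, h5, h6⟩, h7⟩ := h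
    exact ⟨h7, h1, h2, h3, h4, h5, hWi x y h5 h6⟩)
  have r1b : H q (fun z => ((l2 z, l3 z, s0 z, s1 z, v z, W z), l1 z)) +
      H q (fun z => (l2 z, l3 z, s0 z, s1 z)) ≤
      H q (fun z => (l2 z, l3 z, s0 z, s1 z, v z, W z)) +
      H q (fun z => ((l2 z, l3 z, s0 z, s1 z), l1 z)) :=
    submod' hq (by intro x y _ _ h; simp only [Prod.mk.injEq] at h ⊢; tauto)
      (by intro x y _ _ h; simp only [Prod.mk.injEq] at h ⊢; tauto)
      (by intro x y _ _ h; simp only [Prod.mk.injEq] at h ⊢; tauto)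
  have r1c : H q (fun z => (l2 z, l3 z, s0 z, s1 z, v z, W z)) +
      H q (fun z => (l3 z, s1 z, cell A D (s1 z) (l1 z))) ≤
      H q (fun z => (l2 z, l3 z, s1 z, v z, W z)) +
      H q (fun z => ((l3 z, s1 z, cell A D (s1 z) (l1 z)), s0 z)) :=
    submod' hq (by
      intro x y hx hy h
      simp only [Prod.mk.injEq] at h ⊢
      obtain ⟨h1, h2, h3, h4, h5⟩ := h
      refine ⟨h2, h3, ?_⟩
      rw [hi1 x hx, hi1 y hy, h3, h1])
      (by intro x y _ _ h; simp only [Prod.mk.injEq] at h ⊢; tauto)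
      (by intro x y _ _ h; simp only [Prod.mk.injEq] at h ⊢; tauto)
  have r1d : H q (fun z => (l2 z, l3 z, s1 z, v z, W z)) +
      H q (fun z => (W z, v z, cell A D (v z) (l2 z))) ≤
      H q (fun z => (l2 z, W z, v z, s1 z)) +
      H q (fun z => ((W z, v z, cell A D (v z) (l2 z)), l3 z)) :=
    submod' hq (by
      intro x y _ _ h
      simp only [Prod.mk.injEq] at h ⊢
      obtain ⟨h1, h2, h3, h4⟩ := h
      exact ⟨h2, h3, by rw [h1, h3]⟩)
      (by intro x y _ _ h; simp only [Prod.mk.injEq] at h ⊢; tauto)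
      (by intro x y _ _ h; simp only [Prod.mk.injEq] at h ⊢; tauto)
  have r1e : H q (fun z => (l2 z, W z)) = H q (fun z => (W z, l2 z)) :=
    H_congr hq (by intro x y _ _ h; simp only [Prod.mk.injEq] at h ⊢; tauto)
      (by intro x y _ _ h; simp only [Prod.mk.injEq] at h ⊢; tauto)
  have ku : H q (fun z => (l1 z, l2 z, l3 z, s0 z, s1 z, v z, M z, τ z)) +
      H q (fun z => (W z, l2 z)) ≤
      H q (fun z => (l1 z, l2 z, l3 z, s0 z, s1 z, v z, M z)) + H q (fun z => (W z, l2 z, τ z)) :=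
    submod' hq (by
      intro x y _ _ h
      simp only [Prod.mk.injEq] at h ⊢
      obtain ⟨h1, h2, h3, h4, h5, h6, h7⟩ := h
      exact ⟨hWd x y h6 h7 h2 h3, h2⟩)
      (by intro x y _ _ h; simp only [Prod.mk.injEq] at h ⊢; tauto)
      (by intro x y _ _ h; simp only [Prod.mk.injEq] at h ⊢; tauto)
  have kk : H q (fun z => (W z, l2 z, τ z)) + H q W ≤
      H q (fun z => (W z, l2 z)) + H q (fun z => (W z, τ z)) :=
    submod' hq (by intro x y _ _ h; simp only [Prod.mk.injEq] at h ⊢; tauto)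
      (by intro x y _ _ h; simp only [Prod.mk.injEq] at h ⊢; tauto)
      (by intro x y _ _ h; simp only [Prod.mk.injEq] at h ⊢; tauto)
  have orc := OCM d n Ω A D b d C0 hO Θ _ q l2 τ W hq
  have r3a : H q (fun z => (l2 z, W z, τ z, (X z).1)) +
      H q (fun z => (W z, τ z, cell A D (τ z) (l2 z))) ≤
      H q (fun z => (l2 z, W z, τ z)) +
      H q (fun z => ((W z, τ z, cell A D (τ z) (l2 z)), (X z).1)) :=
    submod' hq (by
      intro x y _ _ h
      simp only [Prod.mk.injEq] at h ⊢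
      obtain ⟨h1, h2, h3⟩ := h
      exact ⟨h2, h3, by rw [h1, h3]⟩)
      (by intro x y _ _ h; simp only [Prod.mk.injEq] at h ⊢; tauto)
      (by intro x y _ _ h; simp only [Prod.mk.injEq] at h ⊢; tauto)
  have r3b : H q (fun z => ((W z, τ z, cell A D (τ z) (l2 z)), (X z).1)) ≤
      H q (fun z => ((τ z, cell A D (τ z) (l2 z), X z, (W z).1), W z)) :=
    H_mono hq (by
      intro x y _ _ h
      simp only [Prod.mk.injEq] at h ⊢
      obtain ⟨⟨h1, h2, h3, h4⟩, h5⟩ := h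
      exact ⟨⟨h5, h1, h2⟩, by rw [h3]⟩)
  have r3c : H q (fun z => (τ z, cell A D (τ z) (l2 z), X z, (W z).1)) ≤
      H q (fun z => (τ z, cell A D (τ z) (l2 z))) + H q (fun z => (X z, (W z).1)) :=
    subadd hq (by intro x y _ _ h; simp only [Prod.mk.injEq] at h ⊢; tauto)
  have r3d : H q (fun z => (X z, (W z).1)) ≤ H q X + H q (fun z => (W z).1) :=
    subadd hq (by intro x y _ _ h; simp only [Prod.mk.injEq] at h ⊢; tauto)
  have hht := H_height hq τ
  refine b1_alg d b (Real.log n) (lam p) (aa p) (hh A D p) E C0 CW w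
    (Real.log n - (H q (fun z => (l1 z, l2 z, l3 z, s0 z, s1 z, v z, M z, τ z)) -
      H q (fun z => (l1 z, l2 z, l3 z, s0 z, s1 z, v z, M z))))
    (H q (fun z => (l1 z, l2 z, l3 z, s0 z, s1 z, v z, M z))) (H q (fun z => (W z, l2 z)))
    (H q W) (H q X) (H q (fun z => (W z, τ z)))
    (H q (fun z => (W z, τ z, cell A D (τ z) (l2 z))))
    (H q (fun z => (W z, l2 z, τ z)) - H q (fun z => (W z, l2 z))) _ _ _
    hb hE hC0 w6 (by linarith) (by linarith) (by linarith) orc (Nat.cast_nonneg d)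
    (by linarith)

end Pool.Agent.Y705.HK
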